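import Pool.Agent.helper64.OT.SpecF

/-!
# Row DYA of project OT (MP_f6e9a2_nt): dyadic classes
-/

set_option autoImplicit false

namespace Pool.Agent.OT

open Finset

theorem DYA_cell {p : ℕ} (N : ℕ) (B : Finset (ZMod p)) (i j : ℕ)
    (hj : j ∈ cells N (B.filter fun b => Nat.log 2 (cell N B (b.val / N)).card = i)) :
    cell N (B.filter fun b => Nat.log 2 (cell N B (b.val / N)).card = i) j = cell N B j ∧
      Nat.log 2 (cell N B j).card = i ∧ (cell N B j).card ≠ 0 := by
  unfold cells at hj
  rw [mem_image] at hj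
  obtain ⟨b, hb, rfl⟩ := hj
  rw [mem_filter] at hb
  refine ⟨?_, hb.2, ?_⟩
  · ext x
    unfold cell
    rw [mem_filter, mem_filter, mem_filter]
    constructor
    · rintro ⟨⟨h1, -⟩, h3⟩
      exact ⟨h1, h3⟩
    · rintro ⟨h1, h3⟩
      refine ⟨⟨h1, ?_⟩, h3⟩
      rw [h3]
      exact hb.2
  · refine Finset.card_ne_zero_of_mem (a := b) ?_
    unfold cell
    rw [mem_filter]
    exact ⟨hb.1, rfl⟩

theorem DYA : DYA_stmt := by
  intro p hp N B
  refine ⟨fun i => B.filter fun b => Nat.log 2 (cell N B (b.val / N)).card = i, fun i => filter_subset _ _, fun f => ?_, fun i => ⟨?_, fun j hj => ?_⟩⟩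
  · refine (Finset.sum_fiberwise_of_maps_to (s := B) (t := range (Nat.log 2 p + 1)) (g := fun b => Nat.log 2 (cell N B (b.val / N)).card) (fun b _ => ?_) f).symm
    rw [mem_range, Nat.lt_succ_iff]
    refine Nat.log_mono_right ?_
    have h1 : (cell N B (b.val / N)).card ≤ (Finset.univ : Finset (ZMod p)).card := card_le_card (subset_univ _)
    rw [card_univ, ZMod.card] at h1
    exact h1
  · exact image_subset_image (filter_subset _ _)
  · obtain ⟨h1, h2, h3⟩ := DYA_cell N B i j hj
    show 2 ^ i ≤ (cell N (B.filter fun b => Nat.log 2 (cell N B (b.val / N)).card = i) j).card ∧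
      (cell N (B.filter fun b => Nat.log 2 (cell N B (b.val / N)).card = i) j).card ≤ 2 * 2 ^ i
    rw [h1, ← h2]
    refine ⟨Nat.pow_log_le_self 2 h3, ?_⟩
    have h4 := Nat.lt_pow_succ_log_self (b := 2) (by norm_num) (cell N B j).card
    rw [pow_succ, mul_comm] at h4
    exact h4.le

end Pool.Agent.OT
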